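import Pool.Agent.Helper24.KK.GoalsA

/-!
# KK-DGC: average column degree over the entries of one constraint
-/

set_option autoImplicit false

namespace Pool.Agent.Helper56.KK

open Finset
open Pool.Agent.Helper24.KK

theorem mv_mem {Φ : Type} [DecidableEq Φ] {s t : Φ} {S T : Finset Φ} (hst : s ≠ t)
    (h : Mv s t S T) : t ∈ T ∧ s ∉ T ∧ S = insert s (T.erase t) := by
  obtain ⟨h1, h2, rfl⟩ := h
  refine ⟨mem_insert_self _ _, ?_, ?_⟩
  · rw [mem_insert, not_or]
    exact ⟨hst, notMem_erase _ _⟩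
  · rw [erase_insert (fun h => h2 (mem_of_mem_erase h)), insert_erase h1]

theorem cdeg_nonneg {Φ Mm : Type} [DecidableEq Φ] [Fintype Mm] {l : ℕ} (x : ℕ → ℝ)
    (u v : ℕ → Mm → Φ) (n : ℕ) (J : Ix Φ l) : 0 ≤ cdeg x u v n J :=
  Finset.sum_nonneg fun _ _ => mul_nonneg (abs_nonneg _) (Nat.cast_nonneg _)

theorem dgc (hC : CNT) : DGC := by
  classical
  intro Φ Mm _ _ _ _ l M x u v W Xb hG hl hR n hn k hk m hv
  have hu : u n m ≠ u k m := fun h => by
    have := hG.uu n hn k (hk.trans hn) m h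
    omega
  set R := Fintype.card Φ with hRdef
  set c : ℝ := ((R - 2).choose (l - 1) : ℝ) with hc
  set p : ℝ := (l : ℝ) / R with hp
  have hc0 : 0 ≤ c := Nat.cast_nonneg _
  have hp0 : 0 ≤ p := by positivity
  -- step 1: the entries are determined by the column
  have h1 : ∑ q ∈ univ.filter (fun q : Ix Φ l × Ix Φ l => Ent u v n k m q.1 q.2),
      cdeg x u v n q.2 ≤ ∑ J ∈ univ.filter (fun J : Ix Φ l =>
        (u k m ∈ J.1.1 ∧ u n m ∉ J.1.1) ∧ (v n m ∈ J.2.1 ∧ v k m ∉ J.2.1)),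
        cdeg x u v n J := by
    have hinj : Set.InjOn (fun q : Ix Φ l × Ix Φ l => q.2)
        ((univ.filter (fun q : Ix Φ l × Ix Φ l => Ent u v n k m q.1 q.2) :
          Finset (Ix Φ l × Ix Φ l)) : Set (Ix Φ l × Ix Φ l)) := by
      intro a ha b hb hab
      rw [mem_coe, mem_filter] at ha hb
      have hab' : a.2 = b.2 := hab
      obtain ⟨-, ha1, ha2⟩ := ha
      obtain ⟨-, hb1, hb2⟩ := hb
      have e1 := (mv_mem hu ha1).2.2
      have e2 := (mv_mem hu hb1).2.2
      have e3 := (mv_mem hv ha2).2.2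
      have e4 := (mv_mem hv hb2).2.2
      rw [hab'] at e1 e3
      refine Prod.ext (Prod.ext (Subtype.ext ?_) (Subtype.ext ?_)) hab'
      · rw [e1, e2]
      · rw [e3, e4]
    have himg : ∑ q ∈ univ.filter (fun q : Ix Φ l × Ix Φ l => Ent u v n k m q.1 q.2),
        cdeg x u v n q.2 = ∑ J ∈ (univ.filter (fun q : Ix Φ l × Ix Φ l =>
          Ent u v n k m q.1 q.2)).image (fun q => q.2), cdeg x u v n J :=
      (Finset.sum_image hinj).symm
    rw [himg]
    apply Finset.sum_le_sum_of_subset_of_nonneg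
    · intro J hJ
      rw [mem_image] at hJ
      obtain ⟨q, hq, rfl⟩ := hJ
      rw [mem_filter] at hq ⊢
      obtain ⟨-, hq1, hq2⟩ := hq
      have e1 := mv_mem hu hq1
      have e2 := mv_mem hv hq2
      exact ⟨mem_univ _, ⟨e1.1, e1.2.1⟩, ⟨e2.1, e2.2.1⟩⟩
    · intro J _ _
      exact cdeg_nonneg x u v n J
  refine h1.trans ?_
  -- step 2: exchange the sums
  have h2 : ∑ J ∈ univ.filter (fun J : Ix Φ l =>
        (u k m ∈ J.1.1 ∧ u n m ∉ J.1.1) ∧ (v n m ∈ J.2.1 ∧ v k m ∉ J.2.1)),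
        cdeg x u v n J =
      ∑ j ∈ range n, |x j| * ∑ m' : Mm,
        (((univ.filter fun S : Sl Φ l => u k m ∈ S.1 ∧ u n m ∉ S.1 ∧ u j m' ∈ S.1).card : ℝ) *
        ((univ.filter fun S : Sl Φ l => v n m ∈ S.1 ∧ v k m ∉ S.1 ∧ v n m' ∈ S.1).card : ℝ)) := by
    unfold cdeg
    rw [Finset.sum_comm]
    refine Finset.sum_congr rfl fun j _ => ?_
    rw [← Finset.mul_sum]
    congr 1
    have e1 : ∀ J : Ix Φ l, ((univ.filter fun m' : Mm => u j m' ∈ J.1.1 ∧ v n m' ∈ J.2.1).card : ℝ)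
        = ∑ m' : Mm, if u j m' ∈ J.1.1 ∧ v n m' ∈ J.2.1 then (1 : ℝ) else 0 := by
      intro J
      rw [Finset.sum_boole]
    simp_rw [e1]
    rw [Finset.sum_comm]
    refine Finset.sum_congr rfl fun m' _ => ?_
    rw [Finset.sum_boole, Finset.filter_filter, ← Nat.cast_mul, ← Finset.card_product]
    congr 2
    ext J
    simp only [mem_filter, mem_univ, true_and, mem_product]
    tauto
  rw [h2]
  -- step 3: the counts
  have h3 : ∀ j ∈ range n, ∀ m' : Mm,
      (((univ.filter fun S : Sl Φ l => u k m ∈ S.1 ∧ u n m ∉ S.1 ∧ u j m' ∈ S.1).card : ℝ) *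
        ((univ.filter fun S : Sl Φ l => v n m ∈ S.1 ∧ v k m ∉ S.1 ∧ v n m' ∈ S.1).card : ℝ)) ≤
      (c * ((if u j m' = u k m then 1 else 0) + p)) *
        (c * ((if v n m' = v n m then 1 else 0) + p)) := by
    intro j _ m'
    have a1 := hC Φ l (u k m) (u n m) (u j m') hu.symm hl hR
    have a2 := hC Φ l (v n m) (v k m) (v n m') hv.symm hl hR
    exact mul_le_mul a1 a2 (Nat.cast_nonneg _) ((Nat.cast_nonneg _).trans a1)
  have hMR : (Fintype.card Mm : ℝ) ≤ R := by
    exact_mod_cast Fintype.card_le_of_injective (u n) (hG.ui n hn)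
  have h4 : ∀ j ∈ range n, ∑ m' : Mm,
      (((univ.filter fun S : Sl Φ l => u k m ∈ S.1 ∧ u n m ∉ S.1 ∧ u j m' ∈ S.1).card : ℝ) *
        ((univ.filter fun S : Sl Φ l => v n m ∈ S.1 ∧ v k m ∉ S.1 ∧ v n m' ∈ S.1).card : ℝ)) ≤
      c ^ 2 * ((if j = k then 1 else 0) + (2 * p + R * p ^ 2)) := by
    intro j hj
    have hjM : j < M := (mem_range.1 hj).trans hn
    refine (Finset.sum_le_sum fun m' _ => h3 j hj m').trans ?_
    have e1 : ∀ m' : Mm, (c * ((if u j m' = u k m then 1 else 0) + p)) *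
        (c * ((if v n m' = v n m then 1 else 0) + p)) =
        c ^ 2 * ((if u j m' = u k m then 1 else 0) * (if v n m' = v n m then 1 else 0) +
          p * (if u j m' = u k m then 1 else 0) + p * (if v n m' = v n m then 1 else 0) +
          p ^ 2) := by
      intro m'
      ring
    simp_rw [e1]
    rw [← Finset.mul_sum]
    apply mul_le_mul_of_nonneg_left _ (by positivity)
    rw [Finset.sum_add_distrib, Finset.sum_add_distrib, Finset.sum_add_distrib,
      ← Finset.mul_sum, ← Finset.mul_sum]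
    have f1 : ∑ m' : Mm, (if u j m' = u k m then (1 : ℝ) else 0) ≤ 1 := by
      rw [Finset.sum_boole]
      have : (univ.filter fun m' : Mm => u j m' = u k m).card ≤ 1 := by
        rw [Finset.card_le_one]
        intro a ha b hb
        rw [mem_filter] at ha hb
        exact hG.ui j hjM (ha.2.trans hb.2.symm)
      exact_mod_cast this
    have f2 : ∑ m' : Mm, (if v n m' = v n m then (1 : ℝ) else 0) ≤ 1 := by
      rw [Finset.sum_boole]
      have : (univ.filter fun m' : Mm => v n m' = v n m).card ≤ 1 := by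
        rw [Finset.card_le_one]
        intro a ha b hb
        rw [mem_filter] at ha hb
        exact hG.vi n hn (ha.2.trans hb.2.symm)
      exact_mod_cast this
    have f3 : ∑ m' : Mm, ((if u j m' = u k m then (1 : ℝ) else 0) *
        (if v n m' = v n m then 1 else 0)) ≤ if j = k then 1 else 0 := by
      rw [Finset.sum_eq_single m]
      · rw [if_pos rfl, mul_one]
        by_cases hjk : j = k
        · rw [if_pos hjk]
          split_ifs <;> norm_num
        · rw [if_neg hjk, if_neg]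
          intro h
          exact hjk (hG.uu j hjM k (hk.trans hn) m h)
      · intro b _ hb
        rw [if_neg (fun h => hb (hG.vi n hn h)), mul_zero]
      · intro h
        exact absurd (mem_univ _) h
    have f4 : ∑ _m' : Mm, p ^ 2 ≤ R * p ^ 2 := by
      rw [Finset.sum_const, nsmul_eq_mul, Finset.card_univ]
      exact mul_le_mul_of_nonneg_right hMR (by positivity)
    have f5 := mul_le_mul_of_nonneg_left f1 hp0
    have f6 := mul_le_mul_of_nonneg_left f2 hp0
    linarith
  have h5 : ∑ j ∈ range n, |x j| * ∑ m' : Mm,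
      (((univ.filter fun S : Sl Φ l => u k m ∈ S.1 ∧ u n m ∉ S.1 ∧ u j m' ∈ S.1).card : ℝ) *
        ((univ.filter fun S : Sl Φ l => v n m ∈ S.1 ∧ v k m ∉ S.1 ∧ v n m' ∈ S.1).card : ℝ)) ≤
      ∑ j ∈ range n, |x j| * (c ^ 2 * ((if j = k then 1 else 0) + (2 * p + R * p ^ 2))) :=
    Finset.sum_le_sum fun j hj => mul_le_mul_of_nonneg_left (h4 j hj) (abs_nonneg _)
  refine h5.trans ?_
  have h6 : ∑ j ∈ range n, |x j| * (c ^ 2 * ((if j = k then 1 else 0) + (2 * p + R * p ^ 2))) =
      c ^ 2 * (|x k| + (2 * p + R * p ^ 2) * ∑ j ∈ range n, |x j|) := by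
    have e1 : ∀ j, |x j| * (c ^ 2 * ((if j = k then 1 else 0) + (2 * p + R * p ^ 2))) =
        c ^ 2 * ((if j = k then |x j| else 0) + (2 * p + R * p ^ 2) * |x j|) := by
      intro j
      split_ifs <;> ring
    simp_rw [e1]
    rw [← Finset.mul_sum, Finset.sum_add_distrib, ← Finset.mul_sum, Finset.sum_ite_eq',
      if_pos (mem_range.2 hk)]
  rw [h6]
  have h7 : ∑ j ∈ range n, |x j| ≤ Xb := by
    refine le_trans ?_ hG.sx
    exact Finset.sum_le_sum_of_subset_of_nonneg (Finset.range_mono hn.le)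
      fun _ _ _ => abs_nonneg _
  have h8 : |x k| ≤ W := (hG.x1 k (hk.trans hn)).trans hG.W1
  have hq0 : 0 ≤ 2 * p + R * p ^ 2 := by positivity
  unfold dz avd
  apply mul_le_mul_of_nonneg_left _ (by positivity)
  have h9 := mul_le_mul_of_nonneg_left h7 hq0
  linarith

end Pool.Agent.Helper56.KK
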